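import Pool.Agent.Helper85.SC.Defs

namespace Pool.Agent.Helper85.SC

open IntermediateField

namespace Alpha

/-- The matrix with rows `(1,1,1) α^i`. -/
def rowMat {R : Type*} [CommRing R] (α : Matrix (Fin 3) (Fin 3) R) : Matrix (Fin 3) (Fin 3) R :=
  Matrix.of fun i j => Matrix.vecMul (fun _ => (1 : R)) (α ^ (i : ℕ)) j

theorem rowMat_map {R S : Type*} [CommRing R] [CommRing S] (f : R →+* S)
    (α : Matrix (Fin 3) (Fin 3) R) : (rowMat α).map f = rowMat (α.map f) := by
  ext i j
  have h : (α.map f) ^ (i : ℕ) = (α ^ (i : ℕ)).map f := by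
    have := map_pow (f.mapMatrix (m := Fin 3)) α (i : ℕ)
    simpa using this.symm
  simp only [rowMat, Matrix.map_apply, Matrix.of_apply, Matrix.vecMul, dotProduct, h, one_mul,
    map_sum]

theorem simple_of_det {K : Type*} [Field K] (α : Matrix (Fin 3) (Fin 3) K)
    (hd : (rowMat α).det ≠ 0) (l : K) (v w : Fin 3 → K) (hv : v ≠ 0)
    (hαv : α.mulVec v = l • v) (hαw : α.mulVec w = l • w) : ∃ c : K, w = c • v := by
  have key : ∀ u : Fin 3 → K, α.mulVec u = l • u → (fun _ => (1 : K)) ⬝ᵥ u = 0 → u = 0 := by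
    intro u hu h0
    have hpow : ∀ n : ℕ, (α ^ n).mulVec u = (l ^ n) • u := by
      intro n
      induction n with
      | zero => simp
      | succ n ih =>
        rw [pow_succ, ← Matrix.mulVec_mulVec, hu, Matrix.mulVec_smul, ih, smul_smul, pow_succ,
          mul_comm]
    have hR : (rowMat α).mulVec u = 0 := by
      ext i
      have : (rowMat α).mulVec u i = (fun _ => (1 : K)) ⬝ᵥ ((α ^ (i : ℕ)).mulVec u) := by
        rw [Matrix.dotProduct_mulVec]
        rfl
      rw [this, hpow, dotProduct_smul, h0, smul_zero]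
      rfl
    exact Matrix.eq_zero_of_mulVec_eq_zero hd hR
  set a := (fun _ => (1 : K)) ⬝ᵥ v with ha
  set b := (fun _ => (1 : K)) ⬝ᵥ w with hb
  have ha0 : a ≠ 0 := fun h => hv (key v hαv h)
  have hu : a • w - b • v = 0 := by
    apply key
    · rw [Matrix.mulVec_sub, Matrix.mulVec_smul, Matrix.mulVec_smul, hαv, hαw, smul_sub,
        smul_comm a l, smul_comm b l]
    · rw [dotProduct_sub, dotProduct_smul, dotProduct_smul, ← ha, ← hb]
      simp [mul_comm]
  refine ⟨b / a, ?_⟩
  have h1 : a • w = b • v := sub_eq_zero.mp hu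
  have h2 : w = a⁻¹ • (a • w) := by rw [smul_smul, inv_mul_cancel₀ ha0, one_smul]
  rw [h2, h1, smul_smul, div_eq_mul_inv, mul_comm]

/-- The polynomial equal to `1` at `a` and to `0` at `a ∘ s` for each permutation `s ≠ 1`. -/
noncomputable def bump {k : Type*} [Field k] (a : Fin 6 → k) : MvPolynomial (Fin 6) k :=
  ∏ i : Fin 6, ∏ j ∈ Finset.univ.erase i,
    (MvPolynomial.C (a i - a j)⁻¹ * (MvPolynomial.X i - MvPolynomial.C (a j)))

theorem eval_bump_one {k : Type*} [Field k] (a : Fin 6 → k) (ha : Function.Injective a) :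
    MvPolynomial.eval a (bump a) = 1 := by
  simp only [bump, map_prod, map_mul, map_sub, MvPolynomial.eval_C, MvPolynomial.eval_X]
  apply Finset.prod_eq_one
  intro i _
  apply Finset.prod_eq_one
  intro j hj
  have : a i - a j ≠ 0 := by
    rw [sub_ne_zero]
    intro h
    exact (Finset.ne_of_mem_erase hj) (ha h).symm
  exact inv_mul_cancel₀ this

theorem eval_bump_ne {k : Type*} [Field k] (a : Fin 6 → k) (s : Equiv.Perm (Fin 6)) (hs : s ≠ 1) :
    MvPolynomial.eval (a ∘ s) (bump a) = 0 := by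
  obtain ⟨i, hi⟩ : ∃ i, s i ≠ i := by
    by_contra h
    push Not at h
    exact hs (Equiv.ext h)
  simp only [bump, map_prod, map_mul, map_sub, MvPolynomial.eval_C, MvPolynomial.eval_X]
  apply Finset.prod_eq_zero (Finset.mem_univ i)
  apply Finset.prod_eq_zero (i := s i) (Finset.mem_erase.mpr ⟨hi, Finset.mem_univ _⟩)
  simp

end Alpha

open Alpha in
/-- A matrix over `k(y)`, equivariant under the even permutations of the `y i`, whose
eigenspaces have dimension at most `1`. -/
theorem exists_alpha {k K : Type*} [Field k] [CharZero k] [Field K] [Algebra k K]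
    (y : Fin 6 → K) (hy : AlgebraicIndependent k y)
    (M : Equiv.Perm (Fin 6) → Matrix (Fin 3) (Fin 3) k)
    (hdet : ∀ σ ∈ alternatingGroup (Fin 6), (M σ).det ≠ 0)
    (hmul : ∀ σ ∈ alternatingGroup (Fin 6), ∀ τ ∈ alternatingGroup (Fin 6),
      ∃ c : k, c ≠ 0 ∧ M (σ * τ) = c • (M σ * M τ)) :
    ∃ α : Matrix (Fin 3) (Fin 3) K,
      (∀ i j, α i j ∈ adjoin k (Set.range y)) ∧
      (∀ g : K →ₐ[k] K, ∀ σ ∈ alternatingGroup (Fin 6), (∀ i, g (y i) = y (σ i)) →
        (M σ).map (algebraMap k K) * α.map g = α * (M σ).map (algebraMap k K)) ∧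
      ∀ (l : K) (v w : Fin 3 → K), v ≠ 0 → α.mulVec v = l • v → α.mulVec w = l • w →
        ∃ c : K, w = c • v := by
  classical
  -- the base matrix
  set X0 : Matrix (Fin 3) (Fin 3) k := Matrix.diagonal (fun i => ((i : ℕ) : k)) with hX0
  set N : Equiv.Perm (Fin 6) → Matrix (Fin 3) (Fin 3) k := fun s => M s * X0 * (M s)⁻¹ with hN
  set a : Fin 6 → k := fun i => ((i : ℕ) : k) with haa
  have ha : Function.Injective a := by
    intro i j h
    have : ((i : ℕ) : k) = ((j : ℕ) : k) := h
    exact Fin.ext (by exact_mod_cast this)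
  have hunit : ∀ σ ∈ alternatingGroup (Fin 6), IsUnit (M σ).det := fun σ hσ =>
    isUnit_iff_ne_zero.mpr (hdet σ hσ)
  have hNmul : ∀ σ ∈ alternatingGroup (Fin 6), ∀ τ ∈ alternatingGroup (Fin 6),
      N (σ * τ) * M σ = M σ * N τ := by
    intro σ hσ τ hτ
    obtain ⟨c, hc, h⟩ := hmul σ hσ τ hτ
    have hinv : (M (σ * τ))⁻¹ = c⁻¹ • ((M τ)⁻¹ * (M σ)⁻¹) := by
      apply Matrix.inv_eq_right_inv
      rw [h, Matrix.smul_mul, Matrix.mul_smul, smul_smul, mul_inv_cancel₀ hc, one_smul]
      rw [Matrix.mul_assoc, ← Matrix.mul_assoc (M τ), Matrix.mul_nonsing_inv _ (hunit τ hτ),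
        Matrix.one_mul, Matrix.mul_nonsing_inv _ (hunit σ hσ)]
    simp only [hN]
    rw [hinv, h]
    simp only [Matrix.smul_mul, Matrix.mul_smul, smul_smul]
    rw [inv_mul_cancel₀ hc, one_smul]
    have h3 : (M σ)⁻¹ * M σ = 1 := Matrix.nonsing_inv_mul _ (hunit σ hσ)
    calc M σ * M τ * X0 * ((M τ)⁻¹ * (M σ)⁻¹) * M σ
        = M σ * M τ * X0 * (M τ)⁻¹ * ((M σ)⁻¹ * M σ) := by simp only [Matrix.mul_assoc]
      _ = M σ * (M τ * X0 * (M τ)⁻¹) := by rw [h3, Matrix.mul_one]; simp only [Matrix.mul_assoc]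
  have hone : (1 : Equiv.Perm (Fin 6)) ∈ alternatingGroup (Fin 6) := one_mem _
  have hN1 : N 1 = X0 := by
    obtain ⟨c, hc, h⟩ := hmul 1 hone 1 hone
    rw [one_mul] at h
    have hM1 : M 1 = c⁻¹ • (1 : Matrix (Fin 3) (Fin 3) k) := by
      have h4 : (M 1)⁻¹ * M 1 = 1 := Matrix.nonsing_inv_mul _ (hunit 1 hone)
      have h5 : (1 : Matrix (Fin 3) (Fin 3) k) = c • M 1 := by
        calc (1 : Matrix (Fin 3) (Fin 3) k) = (M 1)⁻¹ * M 1 := h4.symm
          _ = (M 1)⁻¹ * (c • (M 1 * M 1)) := by rw [← h]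
          _ = c • M 1 := by
            rw [Matrix.mul_smul, ← Matrix.mul_assoc, h4, Matrix.one_mul]
      rw [h5, smul_smul, inv_mul_cancel₀ hc, one_smul]
    have hinv : (M 1)⁻¹ = c • (1 : Matrix (Fin 3) (Fin 3) k) := by
      apply Matrix.inv_eq_right_inv
      rw [hM1, Matrix.smul_mul, Matrix.mul_smul, smul_smul, inv_mul_cancel₀ hc, one_smul,
        Matrix.one_mul]
    simp only [hN]
    rw [hinv, hM1]
    simp only [Matrix.smul_mul, Matrix.mul_smul, Matrix.one_mul, Matrix.mul_one, smul_smul]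
    rw [mul_inv_cancel₀ hc, one_smul]
  -- the generic matrix
  set αB : Matrix (Fin 3) (Fin 3) (MvPolynomial (Fin 6) k) :=
    ∑ s : alternatingGroup (Fin 6), (MvPolynomial.rename (s : Equiv.Perm (Fin 6)) (bump a)) •
      (N s).map (MvPolynomial.C) with hαB
  set α : Matrix (Fin 3) (Fin 3) K := αB.map (MvPolynomial.aeval y) with hα
  have hαsum : α = ∑ s : alternatingGroup (Fin 6),
      (MvPolynomial.aeval (y ∘ (s : Equiv.Perm (Fin 6))) (bump a)) •
      (N s).map (algebraMap k K) := by
    ext i j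
    simp only [hα, hαB, Matrix.map_apply, Matrix.sum_apply, Matrix.smul_apply, map_sum,
      smul_eq_mul, map_mul, MvPolynomial.aeval_rename, MvPolynomial.aeval_C]
  refine ⟨α, ?_, ?_, ?_⟩
  · intro i j
    have h1 : α i j ∈ Algebra.adjoin k (Set.range y) := by
      rw [Algebra.adjoin_range_eq_range_aeval]
      exact ⟨αB i j, rfl⟩
    exact algebra_adjoin_le_adjoin k _ h1
  · intro g σ hσ hg
    have hgα : α.map g = ∑ s : alternatingGroup (Fin 6),
        (MvPolynomial.aeval (y ∘ ((σ * (s : Equiv.Perm (Fin 6)) : Equiv.Perm (Fin 6)))) (bump a)) •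
        (N s).map (algebraMap k K) := by
      rw [hαsum]
      ext i j
      simp only [Matrix.map_apply, Matrix.sum_apply, Matrix.smul_apply, map_sum,
        smul_eq_mul, map_mul, AlgHom.commutes]
      apply Finset.sum_congr rfl
      intro s _
      congr 1
      have := MvPolynomial.comp_aeval_apply (y ∘ (s : Equiv.Perm (Fin 6))) g (bump a)
      rw [this]
      congr 2
      ext i
      simp [hg]
    rw [hgα, hαsum, Finset.mul_sum, Finset.sum_mul]
    apply Fintype.sum_equiv (Equiv.mulLeft (⟨σ, hσ⟩ : alternatingGroup (Fin 6)))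
    intro s
    simp only [Equiv.coe_mulLeft, Subgroup.coe_mul]
    rw [Matrix.mul_smul, Matrix.smul_mul]
    congr 1
    rw [← Matrix.map_mul, ← Matrix.map_mul, hNmul σ hσ s s.2]
  · apply simple_of_det
    have h1 : (rowMat α).det = MvPolynomial.aeval y (rowMat αB).det := by
      have := (MvPolynomial.aeval y : MvPolynomial (Fin 6) k →ₐ[k] K).toRingHom.map_det (rowMat αB)
      have h2 := rowMat_map (MvPolynomial.aeval y : MvPolynomial (Fin 6) k →ₐ[k] K).toRingHom αB
      rw [RingHom.mapMatrix_apply, h2] at this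
      exact this.symm
    rw [h1]
    intro h0
    have h2 : (rowMat αB).det = 0 := by
      have := hy
      rw [algebraicIndependent_iff] at this
      exact this _ h0
    have h3 : αB.map (MvPolynomial.eval a) = X0 := by
      ext i j
      simp only [hαB, Matrix.map_apply, Matrix.sum_apply, Matrix.smul_apply, map_sum,
        smul_eq_mul, map_mul, MvPolynomial.eval_rename, MvPolynomial.eval_C]
      rw [Finset.sum_eq_single (1 : alternatingGroup (Fin 6))]
      · have h5 : MvPolynomial.eval (a ∘ ((1 : alternatingGroup (Fin 6)) : Equiv.Perm (Fin 6)))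
            (bump a) = 1 := by
          simpa using eval_bump_one a ha
        rw [h5, one_mul]
        have : N ((1 : alternatingGroup (Fin 6)) : Equiv.Perm (Fin 6)) = X0 := by
          simpa using hN1
        rw [this]
      · intro s _ hs
        rw [eval_bump_ne a s (by simpa using hs), zero_mul]
      · intro h; exact absurd (Finset.mem_univ _) h
    have h4 : (rowMat X0).det = 0 := by
      have h5 := (MvPolynomial.eval a).map_det (rowMat αB)
      rw [RingHom.mapMatrix_apply, rowMat_map, h3, h2, map_zero] at h5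
      exact h5.symm
    have h6 : (rowMat X0).det = 2 := by
      rw [Matrix.det_fin_three]
      simp only [rowMat, Matrix.of_apply, Matrix.vecMul, dotProduct, hX0, Matrix.diagonal_pow,
        Fin.sum_univ_three, one_mul, Matrix.diagonal_apply]
      simp
      norm_num
    rw [h6] at h4
    exact two_ne_zero h4

end Pool.Agent.Helper85.SC
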