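import Pool.Agent.Helper85.SC.GenLem

namespace Pool.Agent.Helper85.SC

open IntermediateField

variable {k : Type*} {K : Type*} [Field k] [Field K] [Algebra k K]

/-- elements fixed by all the automorphisms which induce an even permutation of the `y i` -/
def EvenFixed (F : IntermediateField k K) {n : ℕ} (y : Fin n → K) (a : K) : Prop :=
  ∀ (g : K ≃ₐ[F] K) (σ : Equiv.Perm (Fin n)), σ ∈ alternatingGroup (Fin n) →
    (∀ i, g (y i) = y (σ i)) → g a = a

/-- an element algebraic over `k(a)` with `a` in `br k t` lies in `br k t` -/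
theorem ce_mem_br {r : ℕ} {t : Fin r → K} {a z : K} (ha : a ∈ br k t)
    (hz : IsAlgebraic (adjoin k {a}) z) : z ∈ br k t := by
  rw [mem_br]
  have hle : adjoin k {a} ≤ br k t := by
    rw [adjoin_le_iff]
    intro x hx
    rw [Set.mem_singleton_iff] at hx
    rw [hx]
    exact ha
  have h1 : IsAlgebraic (algebraicClosure (adjoin k (Set.range t)) K) z := by
    obtain ⟨p, hp0, hp⟩ := hz
    let f : adjoin k {a} →+* algebraicClosure (adjoin k (Set.range t)) K :=
      { toFun := fun x => ⟨x, hle x.2⟩
        map_one' := rfl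
        map_mul' := fun _ _ => rfl
        map_zero' := rfl
        map_add' := fun _ _ => rfl }
    refine ⟨p.map f, ?_, ?_⟩
    · rwa [Polynomial.map_ne_zero_iff f.injective]
    · rw [Polynomial.aeval_def, Polynomial.eval₂_map]
      exact hp
  exact h1.restrictScalars (adjoin k (Set.range t))

/-- an element algebraic over `k(a)`, `a` fixed by the even automorphisms, is in the second layer
for `r = 2` -/
theorem mem_next_of_evenFixed [IsAlgClosed K] [CharZero k] {F : IntermediateField k K} {n : ℕ}
    {y : Fin n → K} (hG : Gen F y) {a z : K} (ha : EvenFixed F y a)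
    (hz : IsAlgebraic (adjoin k {a}) z) : z ∈ next k 2 F := by
  rcases Nat.lt_or_ge n 2 with hn | hn
  · have haF : a ∈ F := by
      refine mem_base_of_fixed hG.alg fun g => ?_
      obtain ⟨σ, hσ⟩ := hG.perm g
      have hs : Subsingleton (Fin n) := by
        rw [Fin.subsingleton_iff_le_one]
        omega
      have h1 : σ = 1 := Subsingleton.elim _ _
      refine ha g σ ?_ hσ
      rw [h1]
      exact one_mem _
    exact mem_next_of_algebraic (by norm_num) haF hz
  · let i0 : Fin n := ⟨0, by omega⟩
    let i1 : Fin n := ⟨1, by omega⟩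
    have h01 : i0 ≠ i1 := by
      intro h
      have := congrArg Fin.val h
      simp [i0, i1] at this
    let τ : Equiv.Perm (Fin n) := Equiv.swap i0 i1
    have hτs : Equiv.Perm.sign τ = -1 := Equiv.Perm.sign_swap h01
    obtain ⟨g1, hg1⟩ := hG.lift τ
    have hinv : ∀ i, g1.symm (y i) = y (τ i) := by
      intro i
      rw [AlgEquiv.symm_apply_eq, hg1]
      simp [τ]
    have key : ∀ g : K ≃ₐ[F] K, (g a = a ∧ g (g1 a) = g1 a) ∨ (g a = g1 a ∧ g (g1 a) = a) := by
      intro g
      obtain ⟨σ, hσ⟩ := hG.perm g
      rcases Int.units_eq_one_or (Equiv.Perm.sign σ) with hs | hs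
      · left
        refine ⟨ha g σ (Equiv.Perm.mem_alternatingGroup.2 hs) hσ, ?_⟩
        have h1 := ha ((g1.trans g).trans g1.symm) (τ * σ * τ)
          (Equiv.Perm.mem_alternatingGroup.2 (by rw [map_mul, map_mul, hs, hτs]; simp)) (by
            intro i
            simp only [AlgEquiv.trans_apply]
            rw [hg1, hσ, hinv]
            rfl)
        simp only [AlgEquiv.trans_apply] at h1
        rwa [AlgEquiv.symm_apply_eq] at h1
      · right
        constructor
        · have h1 := ha (g.trans g1.symm) (τ * σ)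
            (Equiv.Perm.mem_alternatingGroup.2 (by rw [map_mul, hs, hτs]; simp)) (by
              intro i
              simp only [AlgEquiv.trans_apply]
              rw [hσ, hinv]
              rfl)
          simp only [AlgEquiv.trans_apply] at h1
          rwa [AlgEquiv.symm_apply_eq] at h1
        · have h1 := ha (g1.trans g) (σ * τ)
            (Equiv.Perm.mem_alternatingGroup.2 (by rw [map_mul, hs, hτs]; simp)) (by
              intro i
              simp only [AlgEquiv.trans_apply]
              rw [hg1, hσ]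
              rfl)
          simpa only [AlgEquiv.trans_apply] using h1
    have hsum : a + g1 a ∈ F := by
      refine mem_base_of_fixed hG.alg fun g => ?_
      rw [map_add]
      rcases key g with ⟨h1, h2⟩ | ⟨h1, h2⟩
      · rw [h1, h2]
      · rw [h1, h2, add_comm]
    have hprod : a * g1 a ∈ F := by
      refine mem_base_of_fixed hG.alg fun g => ?_
      rw [map_mul]
      rcases key g with ⟨h1, h2⟩ | ⟨h1, h2⟩
      · rw [h1, h2]
      · rw [h1, h2, mul_comm]
    let t : Fin 2 → K := ![a + g1 a, a * g1 a]
    refine br_le_next t (fun i => ?_) (ce_mem_br ?_ hz)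
    · fin_cases i
      · exact hsum
      · exact hprod
    · rw [mem_br]
      have m0 : a + g1 a ∈ adjoin k (Set.range t) := subset_adjoin k _ ⟨0, rfl⟩
      have m1 : a * g1 a ∈ adjoin k (Set.range t) := subset_adjoin k _ ⟨1, rfl⟩
      let s0 : adjoin k (Set.range t) := ⟨_, m0⟩
      let s1 : adjoin k (Set.range t) := ⟨_, m1⟩
      refine ⟨Polynomial.X ^ 2 + (Polynomial.C (-s0) * Polynomial.X + Polynomial.C s1), ?_, ?_⟩
      · refine (Polynomial.monic_X_pow_add ?_).ne_zero
        refine lt_of_le_of_lt Polynomial.degree_linear_le ?_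
        norm_num
      · simp only [map_add, map_mul, map_pow, Polynomial.aeval_X, Polynomial.aeval_C, map_neg]
        have e0 : algebraMap (adjoin k (Set.range t)) K s0 = a + g1 a := rfl
        have e1 : algebraMap (adjoin k (Set.range t)) K s1 = a * g1 a := rfl
        rw [e0, e1]
        ring

/-- a root of a monic cubic polynomial is algebraic -/
theorem ce_alg {E : IntermediateField k K} {α β γ z : K} (hα : α ∈ E) (hβ : β ∈ E) (hγ : γ ∈ E)
    (h : z ^ 3 + α * z ^ 2 + β * z + γ = 0) : IsAlgebraic E z := by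
  refine ⟨Polynomial.X ^ 3 + (Polynomial.C (⟨α, hα⟩ : E) * Polynomial.X ^ 2 +
    Polynomial.C (⟨β, hβ⟩ : E) * Polynomial.X + Polynomial.C (⟨γ, hγ⟩ : E)), ?_, ?_⟩
  · refine (Polynomial.monic_X_pow_add ?_).ne_zero
    refine lt_of_le_of_lt Polynomial.degree_quadratic_le ?_
    norm_num
  · simp only [map_add, map_mul, map_pow, Polynomial.aeval_X, Polynomial.aeval_C]
    have e0 : algebraMap E K ⟨α, hα⟩ = α := rfl
    have e1 : algebraMap E K ⟨β, hβ⟩ = β := rfl
    have e2 : algebraMap E K ⟨γ, hγ⟩ = γ := rfl
    rw [e0, e1, e2]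
    linear_combination h

theorem ce_self (t : K) : t ∈ adjoin k {t} := subset_adjoin k _ rfl

theorem ce_self_alg (t : K) : IsAlgebraic (adjoin k {t}) t :=
  isAlgebraic_algebraMap (⟨t, ce_self t⟩ : adjoin k {t})

/-- roots of cubic polynomials with coefficients fixed by the even automorphisms -/
theorem cubic_even [IsAlgClosed K] [CharZero k] {F : IntermediateField k K} {n : ℕ}
    {y : Fin n → K} (hG : Gen F y) {a b c l : K} (ha : EvenFixed F y a)
    (hb : EvenFixed F y b) (hc : EvenFixed F y c) (hl : l ^ 3 + a * l ^ 2 + b * l + c = 0) :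
    l ∈ next k 2 F := by
  have hK : CharZero K := charZero_of_injective_algebraMap (algebraMap k K).injective
  have h3 : (3 : K) ≠ 0 := by norm_num
  obtain ⟨X, hX⟩ : ∃ X, X = l + a / 3 := ⟨_, rfl⟩
  obtain ⟨p, hp⟩ : ∃ p, p = b - a ^ 2 / 3 := ⟨_, rfl⟩
  obtain ⟨q, hq⟩ : ∃ q, q = 2 * a ^ 3 / 27 - a * b / 3 + c := ⟨_, rfl⟩
  have hXe : X ^ 3 + p * X + q = 0 := by
    rw [hX, hp, hq, ← hl]
    ring
  have hpE : EvenFixed F y p := fun g σ h1 h2 => by
    have e3 : g 3 = 3 := map_ofNat g 3
    rw [hp]
    simp [ha g σ h1 h2, hb g σ h1 h2, e3]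
  have hqE : EvenFixed F y q := fun g σ h1 h2 => by
    have e2 : g 2 = 2 := map_ofNat g 2
    have e3 : g 3 = 3 := map_ofNat g 3
    have e27 : g 27 = 27 := map_ofNat g 27
    rw [hq]
    simp [ha g σ h1 h2, hb g σ h1 h2, hc g σ h1 h2, e2, e3, e27]
  have haN : a ∈ next k 2 F := mem_next_of_evenFixed hG ha (ce_self_alg a)
  have h3N : (3 : K) ∈ next k 2 F := by
    have : ((3 : ℕ) : K) ∈ next k 2 F := IntermediateField.natCast_mem _ 3
    exact_mod_cast this
  have hXN : X ∈ next k 2 F := by
    by_cases hp0 : p = 0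
    · refine mem_next_of_evenFixed hG hqE (ce_alg (zero_mem _) (zero_mem _) (ce_self q) ?_)
      rw [hp0] at hXe
      linear_combination hXe
    · by_cases hq0 : q = 0
      · rw [hq0] at hXe
        have h5 : X * (X ^ 2 + p) = 0 := by
          linear_combination hXe
        refine mem_next_of_evenFixed hG hpE (ce_alg (zero_mem _) (ce_self p) (zero_mem _) ?_)
        linear_combination h5
      · obtain ⟨T, hT⟩ : ∃ T, T = p ^ 3 / q ^ 2 := ⟨_, rfl⟩
        have hTE : EvenFixed F y T := fun g σ h1 h2 => by
          rw [hT]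
          simp [hpE g σ h1 h2, hqE g σ h1 h2]
        have hrE : EvenFixed F y (q / p) := fun g σ h1 h2 => by
          simp [hpE g σ h1 h2, hqE g σ h1 h2]
        have hv : p * X / q ∈ next k 2 F := by
          refine mem_next_of_evenFixed hG hTE (ce_alg (zero_mem _) (ce_self T) (ce_self T) ?_)
          have e : (p * X / q) ^ 3 + 0 * (p * X / q) ^ 2 + T * (p * X / q) + T =
              p ^ 3 / q ^ 3 * (X ^ 3 + p * X + q) := by
            rw [hT]
            field_simp
            ring
          rw [e, hXe, mul_zero]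
        have hr : q / p ∈ next k 2 F := mem_next_of_evenFixed hG hrE (ce_self_alg _)
        have e : X = (q / p) * (p * X / q) := by
          field_simp
        rw [e]
        exact mul_mem hr hv
  have e : l = X - a / 3 := by rw [hX]; ring
  rw [e]
  exact sub_mem hXN (div_mem haN h3N)

end Pool.Agent.Helper85.SC
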