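import Pool.Agent.Helper85.SC.GenLem

namespace Pool.Agent.Helper85.SC

open IntermediateField

open scoped IntermediateField.algebraAdjoinAdjoin in
private theorem mem_br_iff_closure {k : Type*} {K : Type*} [Field k] [Field K] [Algebra k K]
    {r : ℕ} {t : Fin r → K} {z : K} :
    z ∈ br k t ↔ z ∈ (AlgebraicIndependent.matroid k K).closure (Set.range t) := by
  rw [mem_br, AlgebraicIndependent.matroid_closure_eq]
  exact (IsFractionRing.isAlgebraic_iff (Algebra.adjoin k (Set.range t))
      (adjoin k (Set.range t)) K).symm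

open scoped IntermediateField.algebraAdjoinAdjoin in
private theorem mem_closure_of_adjoin {k : Type*} {K : Type*} [Field k] [Field K] [Algebra k K]
    {S : Set K} {z : K} (h : IsAlgebraic (adjoin k S) z) :
    z ∈ (AlgebraicIndependent.matroid k K).closure S := by
  rw [AlgebraicIndependent.matroid_closure_eq]
  exact (IsFractionRing.isAlgebraic_iff (Algebra.adjoin k S) (adjoin k S) K).2 h

/-- the coefficients of the minimal polynomial of `z` over `E` lie in any field which contains
all the conjugates of `z` over `E` -/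
private theorem coeff_mem {k : Type*} {K : Type*} [Field k] [Field K] [Algebra k K]
    [IsAlgClosed K] [CharZero k] {E : IntermediateField k K}
    (hE : Algebra.IsAlgebraic E K) (L : IntermediateField k K) (z : K)
    (h : ∀ g : K ≃ₐ[E] K, g z ∈ L) (j : ℕ) :
    (((minpoly E z).coeff j : E) : K) ∈ L := by
  have : CharZero E := charZero_of_injective_algebraMap (algebraMap k E).injective
  have : IsAlgClosure E K := ⟨‹_›, hE⟩
  have : IsGalois E K := {}
  let p : Polynomial K := (minpoly E z).map (algebraMap E K)
  have hpm : p.Monic := (minpoly.monic (hE.isAlgebraic z).isIntegral).map _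
  have hsp : p.Splits := IsAlgClosed.splits p
  have hlift : p ∈ Polynomial.lifts (algebraMap L K) := by
    rw [hsp.eq_prod_roots_of_monic hpm]
    refine Subsemiring.multiset_prod_mem _ _ fun q hq => ?_
    obtain ⟨a, ha, rfl⟩ := Multiset.mem_map.1 hq
    have ha' : a ∈ L := by
      have h1 : Polynomial.aeval a (minpoly E z) = 0 := by
        have := (Polynomial.mem_roots hpm.ne_zero).1 ha
        rw [Polynomial.IsRoot.def, Polynomial.eval_map_algebraMap] at this
        exact this
      obtain ⟨g, hg⟩ := minpoly.exists_algEquiv_of_root (hE.isAlgebraic z) h1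
      have h2 : g.symm z = a := by rw [← hg, AlgEquiv.symm_apply_apply]
      rw [← h2]
      exact h g.symm
    refine (Polynomial.mem_lifts _).2 ⟨Polynomial.X - Polynomial.C ⟨a, ha'⟩, ?_⟩
    simp
  rw [Polynomial.lifts_iff_coeff_lifts] at hlift
  obtain ⟨w, hw⟩ := hlift j
  have h2 : p.coeff j = (((minpoly E z).coeff j : E) : K) := by
    rw [Polynomial.coeff_map]; rfl
  rw [← h2, ← hw]
  exact w.2

/-- if `Gal(K/E)` maps `k(u)` into itself, `u` an `r`-tuple, then `u` is in the next layer
over `E` -/
theorem mem_next_of_stable_field {k : Type*} {K : Type*} [Field k] [Field K] [Algebra k K]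
    [IsAlgClosed K] [CharZero k] {E : IntermediateField k K}
    (hE : Algebra.IsAlgebraic E K) {r : ℕ} (hr : 1 ≤ r) (u : Fin r → K)
    (h : ∀ (g : K ≃ₐ[E] K) (i : Fin r), g (u i) ∈ adjoin k (Set.range u)) (i : Fin r) :
    u i ∈ next k r E := by
  classical
  set L := adjoin k (Set.range u) with hL
  let N := AlgebraicIndependent.matroid k K
  -- the coefficients
  let C : Set K := {c | ∃ (i : Fin r) (j : ℕ), (((minpoly E (u i)).coeff j : E) : K) = c}
  have hCE : ∀ c ∈ C, c ∈ E := by
    rintro _ ⟨i, j, rfl⟩
    exact ((minpoly E (u i)).coeff j).2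
  have hCL : ∀ c ∈ C, c ∈ L := by
    rintro _ ⟨i, j, rfl⟩
    exact coeff_mem hE L (u i) (fun g => h g i) j
  -- `u i` is algebraic over `k(C)`
  have hu : u i ∈ N.closure C := by
    refine mem_closure_of_adjoin ?_
    have hlift : (minpoly E (u i)).map (algebraMap E K) ∈
        Polynomial.lifts (algebraMap (adjoin k C) K) := by
      rw [Polynomial.lifts_iff_coeff_lifts]
      intro j
      refine ⟨⟨(((minpoly E (u i)).coeff j : E) : K), subset_adjoin k _ ⟨i, j, rfl⟩⟩, ?_⟩
      rw [Polynomial.coeff_map]; rfl
    obtain ⟨q, hq⟩ := (Polynomial.mem_lifts _).1 hlift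
    have hm : (minpoly E (u i)).Monic := minpoly.monic (hE.isAlgebraic (u i)).isIntegral
    refine ⟨q, ?_, ?_⟩
    · rintro rfl
      rw [Polynomial.map_zero] at hq
      exact (hm.map (algebraMap E K)).ne_zero hq.symm
    · rw [Polynomial.aeval_def, Polynomial.eval₂_eq_eval_map, hq,
        Polynomial.eval_map_algebraMap, minpoly.aeval]
  -- a basis
  have hE' : N.E = Set.univ := AlgebraicIndependent.matroid_e k K
  obtain ⟨I, hI⟩ := N.exists_isBasis C (by rw [hE']; exact Set.subset_univ _)
  have hIC : I ⊆ C := hI.subset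
  have hcl : N.closure I = N.closure C := hI.closure_eq_closure
  have hle : I.encard ≤ r := by
    have h1 : C ⊆ N.closure (Set.range u) := by
      intro c hc
      refine mem_closure_of_adjoin ?_
      exact isAlgebraic_algebraMap (⟨c, hCL c hc⟩ : adjoin k (Set.range u))
    have h2 := N.eRk_mono h1
    rw [Matroid.eRk_closure_eq, ← hI.encard_eq_eRk] at h2
    refine h2.trans ((N.eRk_le_encard (Set.range u)).trans ?_)
    rw [← Set.image_univ]
    refine (Set.encard_image_le _ _).trans ?_
    rw [Set.encard_univ]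
    simp
  have hfin : I.Finite := Set.finite_of_encard_le_coe hle
  obtain ⟨m, hm⟩ : ∃ m : ℕ, I.encard = m := ⟨I.ncard, hfin.cast_ncard_eq.symm⟩
  have hmr : m ≤ r := by
    rw [hm] at hle
    exact_mod_cast hle
  obtain ⟨f, hf⟩ : ∃ f : Fin m → K, Set.range f = I := by
    have h3 : hfin.toFinset.card = m := by
      have h4 := hfin.encard_eq_coe_toFinset_card
      rw [hm] at h4
      exact_mod_cast h4.symm
    let e := hfin.toFinset.equivFinOfCardEq h3
    refine ⟨fun a => (e.symm a : K), ?_⟩
    ext z
    constructor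
    · rintro ⟨a, rfl⟩
      exact (hfin.mem_toFinset).1 (e.symm a).2
    · intro hz
      exact ⟨e ⟨z, hfin.mem_toFinset.2 hz⟩, by simp⟩
  let t : Fin r → K := fun a => if ha : (a : ℕ) < m then f ⟨a, ha⟩ else 0
  have htE : ∀ a, t a ∈ E := by
    intro a
    simp only [t]
    split_ifs with ha
    · exact hCE _ (hIC (hf ▸ Set.mem_range_self _))
    · exact zero_mem E
  have hIt : I ⊆ Set.range t := by
    rw [← hf]
    rintro _ ⟨a, rfl⟩
    refine ⟨⟨a, lt_of_lt_of_le a.2 hmr⟩, ?_⟩
    simp [t]
  refine br_le_next t htE (mem_br_iff_closure.2 ?_)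
  rw [← hcl] at hu
  exact N.closure_subset_closure hIt hu

end Pool.Agent.Helper85.SC
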