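import Mathlib

namespace Pool.Agent.Helper85.SC

namespace Valent

open Matrix

section perms

/-- permutation of the conics induced by the cyclic matrix -/
def sP : Equiv.Perm (Fin 6) := ⟨![0, 1, 5, 2, 4, 3], ![0, 1, 3, 5, 4, 2], by decide, by decide⟩

/-- permutation of the conics induced by the diagonal matrix -/
def sD : Equiv.Perm (Fin 6) := ⟨![0, 1, 4, 5, 2, 3], ![0, 1, 4, 5, 2, 3], by decide, by decide⟩

/-- permutation of the conics induced by the rotation of order five -/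
def sA : Equiv.Perm (Fin 6) := ⟨![0, 5, 1, 2, 3, 4], ![0, 2, 3, 4, 5, 1], by decide, by decide⟩

/-- permutation of the conics induced by the last matrix -/
def sM : Equiv.Perm (Fin 6) := ⟨![5, 1, 3, 0, 2, 4], ![3, 1, 4, 2, 5, 0], by decide, by decide⟩

theorem sP_alt : sP ∈ alternatingGroup (Fin 6) := by
  rw [Equiv.Perm.mem_alternatingGroup]
  decide

theorem sD_alt : sD ∈ alternatingGroup (Fin 6) := by
  rw [Equiv.Perm.mem_alternatingGroup]
  decide

theorem sA_alt : sA ∈ alternatingGroup (Fin 6) := by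
  rw [Equiv.Perm.mem_alternatingGroup]
  decide

theorem sM_alt : sM ∈ alternatingGroup (Fin 6) := by
  rw [Equiv.Perm.mem_alternatingGroup]
  decide

/-- even permutations fixing `0,..,3` are trivial -/
theorem fix4 (σ : Equiv.Perm (Fin 6)) (hσ : σ ∈ alternatingGroup (Fin 6))
    (h : ∀ j : Fin 6, (j : ℕ) < 4 → σ j = j) : σ = 1 := by
  have big : ∀ a : Fin 6, ¬ (a : ℕ) < 4 → ¬ ((σ a : Fin 6) : ℕ) < 4 := by
    intro a ha hlt
    have h1 := h (σ a) hlt
    have h2 := σ.injective h1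
    rw [h2] at hlt
    exact ha hlt
  have b4 := big 4 (by decide)
  have b5 := big 5 (by decide)
  have l4 := (σ 4).isLt
  have l5 := (σ 5).isLt
  have hne : σ 4 ≠ σ 5 := fun e => absurd (σ.injective e) (by decide)
  have hne' : ((σ 4 : Fin 6) : ℕ) ≠ ((σ 5 : Fin 6) : ℕ) := fun e => hne (Fin.ext e)
  rcases (by omega : ((σ 4 : Fin 6) : ℕ) = 4 ∨ ((σ 4 : Fin 6) : ℕ) = 5) with e4 | e4
  · have e5 : ((σ 5 : Fin 6) : ℕ) = 5 := by omega
    have f4 : σ 4 = 4 := Fin.ext e4
    have f5 : σ 5 = 5 := Fin.ext e5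
    apply Equiv.ext
    intro j
    fin_cases j
    · exact h 0 (by decide)
    · exact h 1 (by decide)
    · exact h 2 (by decide)
    · exact h 3 (by decide)
    · exact f4
    · exact f5
  · exfalso
    have e5 : ((σ 5 : Fin 6) : ℕ) = 4 := by omega
    have f4 : σ 4 = 5 := Fin.ext e4
    have f5 : σ 5 = 4 := Fin.ext e5
    have hsw : σ = Equiv.swap 4 5 := by
      apply Equiv.ext
      intro j
      fin_cases j
      · exact h 0 (by decide)
      · exact h 1 (by decide)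
      · exact h 2 (by decide)
      · exact h 3 (by decide)
      · exact f4
      · exact f5
    rw [Equiv.Perm.mem_alternatingGroup, hsw, Equiv.Perm.sign_swap (by decide)] at hσ
    exact absurd hσ (by decide)

/-- descent along the stabiliser chain -/
theorem step (H : Subgroup (Equiv.Perm (Fin 6))) (hH : H ≤ alternatingGroup (Fin 6)) (i : ℕ)
    (hi : i < 6) (hu : ∀ x : Fin 6, i ≤ (x : ℕ) → ∃ u ∈ H,
      (∀ j : Fin 6, (j : ℕ) < i → u j = j) ∧ u ⟨i, hi⟩ = x)
    (hT : ∀ σ ∈ alternatingGroup (Fin 6), (∀ j : Fin 6, (j : ℕ) < i + 1 → σ j = j) → σ ∈ H) :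
    ∀ σ ∈ alternatingGroup (Fin 6), (∀ j : Fin 6, (j : ℕ) < i → σ j = j) → σ ∈ H := by
  intro σ hσ h
  have hx : i ≤ ((σ ⟨i, hi⟩ : Fin 6) : ℕ) := by
    by_contra hlt
    push Not at hlt
    have h1 := h (σ ⟨i, hi⟩) hlt
    have h2 := σ.injective h1
    rw [h2] at hlt
    exact lt_irrefl _ hlt
  obtain ⟨u, huH, hu1, hu2⟩ := hu _ hx
  have h3 : u⁻¹ * σ ∈ H := by
    apply hT
    · exact Subgroup.mul_mem _ (Subgroup.inv_mem _ (hH huH)) hσ
    · intro j hj
      rw [Equiv.Perm.mul_apply, Equiv.Perm.inv_eq_iff_eq]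
      rcases Nat.lt_succ_iff_lt_or_eq.mp hj with hj | hj
      · rw [h j hj, hu1 j hj]
      · have : j = ⟨i, hi⟩ := Fin.ext hj
        rw [this, hu2]
  have h4 := H.mul_mem huH h3
  rwa [mul_inv_cancel_left] at h4

theorem gen (G : Subgroup (Equiv.Perm (Fin 6))) (hP : sP ∈ G) (hD : sD ∈ G) (hA : sA ∈ G)
    (hM : sM ∈ G) : alternatingGroup (Fin 6) ≤ G := by
  set H := G ⊓ alternatingGroup (Fin 6) with hH
  have P : sP ∈ H := ⟨hP, sP_alt⟩
  have D : sD ∈ H := ⟨hD, sD_alt⟩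
  have A : sA ∈ H := ⟨hA, sA_alt⟩
  have M : sM ∈ H := ⟨hM, sM_alt⟩
  have hle : H ≤ alternatingGroup (Fin 6) := inf_le_right
  have T4 : ∀ σ ∈ alternatingGroup (Fin 6), (∀ j : Fin 6, (j : ℕ) < 4 → σ j = j) → σ ∈ H := by
    intro σ hσ h
    rw [fix4 σ hσ h]
    exact H.one_mem
  have T3 := step H hle 3 (by norm_num) (by
    intro x hx
    fin_cases x
    · exact absurd hx (by decide)
    · exact absurd hx (by decide)
    · exact absurd hx (by decide)
    · exact ⟨1, H.one_mem, by decide, by decide⟩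
    · exact ⟨sP * sD * sP, H.mul_mem (H.mul_mem P D) P, by decide, by decide⟩
    · exact ⟨sD * sP * sD, H.mul_mem (H.mul_mem D P) D, by decide, by decide⟩) T4
  have T2 := step H hle 2 (by norm_num) (by
    intro x hx
    fin_cases x
    · exact absurd hx (by decide)
    · exact absurd hx (by decide)
    · exact ⟨1, H.one_mem, by decide, by decide⟩
    · exact ⟨sP * sP, H.mul_mem P P, by decide, by decide⟩
    · exact ⟨sD, D, by decide, by decide⟩
    · exact ⟨sP, P, by decide, by decide⟩) T3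
  have T1 := step H hle 1 (by norm_num) (by
    intro x hx
    fin_cases x
    · exact absurd hx (by decide)
    · exact ⟨1, H.one_mem, by decide, by decide⟩
    · exact ⟨sP * sP * sA, H.mul_mem (H.mul_mem P P) A, by decide, by decide⟩
    · exact ⟨sP * sA, H.mul_mem P A, by decide, by decide⟩
    · exact ⟨sA * sA, H.mul_mem A A, by decide, by decide⟩
    · exact ⟨sA, A, by decide, by decide⟩) T2
  have T0 := step H hle 0 (by norm_num) (by
    intro x hx
    fin_cases x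
    · exact ⟨1, H.one_mem, by decide, by decide⟩
    · exact ⟨sA * sP * sP * sM, H.mul_mem (H.mul_mem (H.mul_mem A P) P) M, by decide, by decide⟩
    · exact ⟨sP * sP * sM, H.mul_mem (H.mul_mem P P) M, by decide, by decide⟩
    · exact ⟨sP * sM, H.mul_mem P M, by decide, by decide⟩
    · exact ⟨sA * sM, H.mul_mem A M, by decide, by decide⟩
    · exact ⟨sM, M, by decide, by decide⟩) T1
  intro σ hσ
  exact (T0 σ hσ fun j hj => absurd hj (Nat.not_lt_zero _)).1

end perms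

section matrices

variable {k : Type*} [Field k]

/-- six symmetric matrices (conics) -/
def Cm (s w : k) : Fin 6 → Matrix (Fin 3) (Fin 3) k
  | 0 => !![1, 0, 0; 0, 1, 0; 0, 0, 1]
  | 1 => !![1, 0, 0; 0, w, 0; 0, 0, w ^ 2]
  | 2 => !![-1 + s + 2 * s * w, -2 * s + 3 * w - s * w, -3 + s - 3 * w - s * w;
            -2 * s + 3 * w - s * w, 1 + s + w - s * w, -3 - s - 2 * s * w;
            -3 + s - 3 * w - s * w, -3 - s - 2 * s * w, -2 * s - w - s * w]
  | 3 => !![-2 * s - w - s * w, -3 + s - 3 * w - s * w, -3 - s - 2 * s * w;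
            -3 + s - 3 * w - s * w, -1 + s + 2 * s * w, -2 * s + 3 * w - s * w;
            -3 - s - 2 * s * w, -2 * s + 3 * w - s * w, 1 + s + w - s * w]
  | 4 => !![-2 * s - w - s * w, -(-3 + s - 3 * w - s * w), -3 - s - 2 * s * w;
            -(-3 + s - 3 * w - s * w), -1 + s + 2 * s * w, -(-2 * s + 3 * w - s * w);
            -3 - s - 2 * s * w, -(-2 * s + 3 * w - s * w), 1 + s + w - s * w]
  | 5 => !![-1 + s + 2 * s * w, -(-2 * s + 3 * w - s * w), -3 + s - 3 * w - s * w;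
            -(-2 * s + 3 * w - s * w), 1 + s + w - s * w, -(-3 - s - 2 * s * w);
            -3 + s - 3 * w - s * w, -(-3 - s - 2 * s * w), -2 * s - w - s * w]

/-- `g` transforms the conic `σ i` into the conic `i` up to scalars -/
def Rel (s w : k) (σ : Equiv.Perm (Fin 6)) (g : Matrix (Fin 3) (Fin 3) k) : Prop :=
  g.det ≠ 0 ∧ ∀ i, ∃ c : k, c ≠ 0 ∧ gᵀ * Cm s w (σ i) * g = c • Cm s w i

theorem Rel.one (s w : k) : Rel s w 1 1 :=
  ⟨by rw [det_one]; exact one_ne_zero, fun i => ⟨1, one_ne_zero, by simp⟩⟩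

theorem Rel.mul {s w : k} {σ τ : Equiv.Perm (Fin 6)} {g h : Matrix (Fin 3) (Fin 3) k}
    (h1 : Rel s w σ g) (h2 : Rel s w τ h) : Rel s w (σ * τ) (g * h) := by
  refine ⟨by rw [det_mul]; exact mul_ne_zero h1.1 h2.1, fun i => ?_⟩
  obtain ⟨c, hc, e1⟩ := h1.2 (τ i)
  obtain ⟨c', hc', e2⟩ := h2.2 i
  refine ⟨c * c', mul_ne_zero hc hc', ?_⟩
  calc (g * h)ᵀ * Cm s w ((σ * τ) i) * (g * h)
      = hᵀ * (gᵀ * Cm s w (σ (τ i)) * g) * h := by
        rw [transpose_mul, Equiv.Perm.mul_apply]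
        simp only [Matrix.mul_assoc]
    _ = (c * c') • Cm s w i := by
        rw [e1, Matrix.mul_smul, Matrix.smul_mul, e2, smul_smul]

theorem Rel.inv {s w : k} {σ : Equiv.Perm (Fin 6)} {g : Matrix (Fin 3) (Fin 3) k}
    (h1 : Rel s w σ g) : Rel s w σ⁻¹ g⁻¹ := by
  have hu : IsUnit g.det := isUnit_iff_ne_zero.mpr h1.1
  refine ⟨?_, fun j => ?_⟩
  · rw [det_nonsing_inv]
    exact (hu.ringInverse).ne_zero
  · obtain ⟨c, hc, e1⟩ := h1.2 (σ⁻¹ j)
    have hj : σ (σ⁻¹ j) = j := σ.apply_symm_apply j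
    rw [hj] at e1
    refine ⟨c⁻¹, inv_ne_zero hc, ?_⟩
    have e2 : Cm s w (σ⁻¹ j) = c⁻¹ • (gᵀ * Cm s w j * g) := by
      rw [e1, smul_smul, inv_mul_cancel₀ hc, one_smul]
    have e3 : (g⁻¹)ᵀ * gᵀ = 1 := by
      rw [← transpose_mul, Matrix.mul_nonsing_inv _ hu, transpose_one]
    calc (g⁻¹)ᵀ * Cm s w (σ⁻¹ j) * g⁻¹ = c⁻¹ • ((g⁻¹)ᵀ * gᵀ * Cm s w j * (g * g⁻¹)) := by
          rw [e2, Matrix.mul_smul, Matrix.smul_mul]
          simp only [Matrix.mul_assoc]
      _ = c⁻¹ • Cm s w j := by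
          rw [e3, Matrix.mul_nonsing_inv _ hu, Matrix.one_mul, Matrix.mul_one]

/-- the cyclic matrix -/
def Pm : Matrix (Fin 3) (Fin 3) k := !![0, 1, 0; 0, 0, 1; 1, 0, 0]

/-- the diagonal matrix -/
def Dm : Matrix (Fin 3) (Fin 3) k := !![1, 0, 0; 0, -1, 0; 0, 0, -1]

/-- the rotation of order five -/
def Am (s : k) : Matrix (Fin 3) (Fin 3) k :=
  !![2, -(1 + s), s - 1; 1 + s, s - 1, -2; s - 1, 2, 1 + s]

/-- the last matrix -/
def Mm (s w : k) : Matrix (Fin 3) (Fin 3) k :=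
  !![s - 1, (1 + s) * w ^ 2, -2 * w; -(1 + s) * w, 2, (s - 1) * w ^ 2; 2 * w ^ 2, (s - 1) * w, 1 + s]

theorem w_ne {w : k} (hw : w ^ 2 + w + 1 = 0) : w ≠ 0 := by
  rintro rfl
  simp at hw

theorem relP {s w : k} [CharZero k] (hw : w ^ 2 + w + 1 = 0) : Rel s w sP Pm := by
  have hw0 := w_ne hw
  have h2 : (2 : k) ≠ 0 := two_ne_zero
  refine ⟨by simp [Pm, det_fin_three], fun i => ?_⟩
  fin_cases i
  · refine ⟨1, one_ne_zero, ?_⟩
    change Pmᵀ * Cm s w 0 * Pm = (1 : k) • Cm s w 0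
    ext i j
    fin_cases i <;> fin_cases j <;>
      simp [Matrix.mul_apply, Fin.sum_univ_three, Pm, Cm] <;> grind
  · refine ⟨w ^ 2, pow_ne_zero _ hw0, ?_⟩
    change Pmᵀ * Cm s w 1 * Pm = (w ^ 2 : k) • Cm s w 1
    ext i j
    fin_cases i <;> fin_cases j <;>
      simp [Matrix.mul_apply, Fin.sum_univ_three, Pm, Cm] <;> grind
  · refine ⟨w, hw0, ?_⟩
    change Pmᵀ * Cm s w 5 * Pm = (w : k) • Cm s w 2
    ext i j
    fin_cases i <;> fin_cases j <;>
      simp [Matrix.mul_apply, Fin.sum_univ_three, Pm, Cm] <;> grind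
  · refine ⟨1, one_ne_zero, ?_⟩
    change Pmᵀ * Cm s w 2 * Pm = (1 : k) • Cm s w 3
    ext i j
    fin_cases i <;> fin_cases j <;>
      simp [Matrix.mul_apply, Fin.sum_univ_three, Pm, Cm] <;> grind
  · refine ⟨w, hw0, ?_⟩
    change Pmᵀ * Cm s w 4 * Pm = (w : k) • Cm s w 4
    ext i j
    fin_cases i <;> fin_cases j <;>
      simp [Matrix.mul_apply, Fin.sum_univ_three, Pm, Cm] <;> grind
  · refine ⟨w ^ 2, pow_ne_zero _ hw0, ?_⟩
    change Pmᵀ * Cm s w 3 * Pm = (w ^ 2 : k) • Cm s w 5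
    ext i j
    fin_cases i <;> fin_cases j <;>
      simp [Matrix.mul_apply, Fin.sum_univ_three, Pm, Cm] <;> grind

theorem relD {s w : k} [CharZero k] (hw : w ^ 2 + w + 1 = 0) : Rel s w sD Dm := by
  have hw0 := w_ne hw
  have h2 : (2 : k) ≠ 0 := two_ne_zero
  refine ⟨by simp [Dm, det_fin_three], fun i => ?_⟩
  fin_cases i
  · refine ⟨1, one_ne_zero, ?_⟩
    change Dmᵀ * Cm s w 0 * Dm = (1 : k) • Cm s w 0
    ext i j
    fin_cases i <;> fin_cases j <;>
      simp [Matrix.mul_apply, Fin.sum_univ_three, Dm, Cm] <;> grind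
  · refine ⟨1, one_ne_zero, ?_⟩
    change Dmᵀ * Cm s w 1 * Dm = (1 : k) • Cm s w 1
    ext i j
    fin_cases i <;> fin_cases j <;>
      simp [Matrix.mul_apply, Fin.sum_univ_three, Dm, Cm] <;> grind
  · refine ⟨w, hw0, ?_⟩
    change Dmᵀ * Cm s w 4 * Dm = (w : k) • Cm s w 2
    ext i j
    fin_cases i <;> fin_cases j <;>
      simp [Matrix.mul_apply, Fin.sum_univ_three, Dm, Cm] <;> grind
  · refine ⟨w ^ 2, pow_ne_zero _ hw0, ?_⟩
    change Dmᵀ * Cm s w 5 * Dm = (w ^ 2 : k) • Cm s w 3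
    ext i j
    fin_cases i <;> fin_cases j <;>
      simp [Matrix.mul_apply, Fin.sum_univ_three, Dm, Cm] <;> grind
  · refine ⟨w ^ 2, pow_ne_zero _ hw0, ?_⟩
    change Dmᵀ * Cm s w 2 * Dm = (w ^ 2 : k) • Cm s w 4
    ext i j
    fin_cases i <;> fin_cases j <;>
      simp [Matrix.mul_apply, Fin.sum_univ_three, Dm, Cm] <;> grind
  · refine ⟨w, hw0, ?_⟩
    change Dmᵀ * Cm s w 3 * Dm = (w : k) • Cm s w 5
    ext i j
    fin_cases i <;> fin_cases j <;>
      simp [Matrix.mul_apply, Fin.sum_univ_three, Dm, Cm] <;> grind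

theorem relA {s w : k} [CharZero k] (hs : s ^ 2 = 5) (hw : w ^ 2 + w + 1 = 0) : Rel s w sA (Am s) := by
  have hw0 := w_ne hw
  have h2 : (2 : k) ≠ 0 := two_ne_zero
  refine ⟨by
    have : (Am s).det = 64 := by
      rw [det_fin_three]
      simp [Am]
      grind
    rw [this]
    norm_num, fun i => ?_⟩
  fin_cases i
  · refine ⟨16, by norm_num, ?_⟩
    change (Am s)ᵀ * Cm s w 0 * (Am s) = (16 : k) • Cm s w 0
    ext i j
    fin_cases i <;> fin_cases j <;>
      simp [Matrix.mul_apply, Fin.sum_univ_three, Am, Cm] <;> grind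
  · refine ⟨128, by norm_num, ?_⟩
    change (Am s)ᵀ * Cm s w 5 * (Am s) = (128 : k) • Cm s w 1
    ext i j
    fin_cases i <;> fin_cases j <;>
      simp [Matrix.mul_apply, Fin.sum_univ_three, Am, Cm] <;> grind
  · refine ⟨2, h2, ?_⟩
    change (Am s)ᵀ * Cm s w 1 * (Am s) = (2 : k) • Cm s w 2
    ext i j
    fin_cases i <;> fin_cases j <;>
      simp [Matrix.mul_apply, Fin.sum_univ_three, Am, Cm] <;> grind
  · refine ⟨16, by norm_num, ?_⟩
    change (Am s)ᵀ * Cm s w 2 * (Am s) = (16 : k) • Cm s w 3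
    ext i j
    fin_cases i <;> fin_cases j <;>
      simp [Matrix.mul_apply, Fin.sum_univ_three, Am, Cm] <;> grind
  · refine ⟨16, by norm_num, ?_⟩
    change (Am s)ᵀ * Cm s w 3 * (Am s) = (16 : k) • Cm s w 4
    ext i j
    fin_cases i <;> fin_cases j <;>
      simp [Matrix.mul_apply, Fin.sum_univ_three, Am, Cm] <;> grind
  · refine ⟨16, by norm_num, ?_⟩
    change (Am s)ᵀ * Cm s w 4 * (Am s) = (16 : k) • Cm s w 5
    ext i j
    fin_cases i <;> fin_cases j <;>
      simp [Matrix.mul_apply, Fin.sum_univ_three, Am, Cm] <;> grind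

theorem relM {s w : k} [CharZero k] (hs : s ^ 2 = 5) (hw : w ^ 2 + w + 1 = 0) : Rel s w sM (Mm s w) := by
  have hw0 := w_ne hw
  have h2 : (2 : k) ≠ 0 := two_ne_zero
  refine ⟨by
    have : (Mm s w).det = 64 := by
      rw [det_fin_three]
      simp [Mm]
      grind
    rw [this]
    norm_num, fun i => ?_⟩
  fin_cases i
  · refine ⟨128 * w ^ 2, mul_ne_zero (by norm_num) (pow_ne_zero _ hw0), ?_⟩
    change (Mm s w)ᵀ * Cm s w 5 * (Mm s w) = (128 * w ^ 2 : k) • Cm s w 0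
    ext i j
    fin_cases i <;> fin_cases j <;>
      simp [Matrix.mul_apply, Fin.sum_univ_three, Mm, Cm] <;> grind
  · refine ⟨16, by norm_num, ?_⟩
    change (Mm s w)ᵀ * Cm s w 1 * (Mm s w) = (16 : k) • Cm s w 1
    ext i j
    fin_cases i <;> fin_cases j <;>
      simp [Matrix.mul_apply, Fin.sum_univ_three, Mm, Cm] <;> grind
  · refine ⟨16 * w ^ 2, mul_ne_zero (by norm_num) (pow_ne_zero _ hw0), ?_⟩
    change (Mm s w)ᵀ * Cm s w 3 * (Mm s w) = (16 * w ^ 2 : k) • Cm s w 2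
    ext i j
    fin_cases i <;> fin_cases j <;>
      simp [Matrix.mul_apply, Fin.sum_univ_three, Mm, Cm] <;> grind
  · refine ⟨2, h2, ?_⟩
    change (Mm s w)ᵀ * Cm s w 0 * (Mm s w) = (2 : k) • Cm s w 3
    ext i j
    fin_cases i <;> fin_cases j <;>
      simp [Matrix.mul_apply, Fin.sum_univ_three, Mm, Cm] <;> grind
  · refine ⟨16 * w ^ 2, mul_ne_zero (by norm_num) (pow_ne_zero _ hw0), ?_⟩
    change (Mm s w)ᵀ * Cm s w 2 * (Mm s w) = (16 * w ^ 2 : k) • Cm s w 4
    ext i j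
    fin_cases i <;> fin_cases j <;>
      simp [Matrix.mul_apply, Fin.sum_univ_three, Mm, Cm] <;> grind
  · refine ⟨16, by norm_num, ?_⟩
    change (Mm s w)ᵀ * Cm s w 4 * (Mm s w) = (16 : k) • Cm s w 5
    ext i j
    fin_cases i <;> fin_cases j <;>
      simp [Matrix.mul_apply, Fin.sum_univ_three, Mm, Cm] <;> grind

end matrices

section unique

variable {k : Type*} [Field k]

theorem Cm_zero (s w : k) : Cm s w 0 = 1 := by
  ext i j
  fin_cases i <;> fin_cases j <;> simp [Cm]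

theorem comm_of {g C : Matrix (Fin 3) (Fin 3) k} {c c0 : k} (hc0 : c0 ≠ 0)
    (h0 : gᵀ * g = c0 • (1 : Matrix (Fin 3) (Fin 3) k)) (h : gᵀ * C * g = c • C) :
    C * g = (c / c0) • (g * C) := by
  have h1 : (c0⁻¹ • gᵀ) * g = 1 := by
    rw [Matrix.smul_mul, h0, smul_smul, inv_mul_cancel₀ hc0, one_smul]
  have h2 : g * (c0⁻¹ • gᵀ) = 1 := mul_eq_one_comm.mp h1
  calc C * g = g * (c0⁻¹ • gᵀ) * (C * g) := by rw [h2, Matrix.one_mul]
    _ = c0⁻¹ • (g * (gᵀ * C * g)) := by
        rw [Matrix.mul_smul, Matrix.smul_mul]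
        simp only [Matrix.mul_assoc]
    _ = (c / c0) • (g * C) := by
        rw [h, Matrix.mul_smul, smul_smul, div_eq_inv_mul]

theorem trace_rel {g C C' : Matrix (Fin 3) (Fin 3) k} {m m' : k} (hg : g.det ≠ 0)
    (h : C * g = m • (g * C)) (h' : C' * g = m' • (g * C')) (ht : (C * C').trace ≠ 0) :
    m * m' = 1 := by
  have hu : IsUnit g.det := isUnit_iff_ne_zero.mpr hg
  have h1 : C * C' * g = (m * m') • (g * (C * C')) := by
    rw [Matrix.mul_assoc, h', Matrix.mul_smul, ← Matrix.mul_assoc, h, Matrix.smul_mul, smul_smul,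
      Matrix.mul_assoc, mul_comm m' m]
  have h2 : g⁻¹ * (C * C' * g) = (m * m') • (C * C') := by
    rw [h1, Matrix.mul_smul, ← Matrix.mul_assoc, Matrix.nonsing_inv_mul _ hu, Matrix.one_mul]
  have h3 : (g⁻¹ * (C * C' * g)).trace = (C * C').trace := by
    rw [Matrix.trace_mul_comm, Matrix.mul_assoc (C * C') g, Matrix.mul_nonsing_inv _ hu,
      Matrix.mul_one]
  rw [h2, Matrix.trace_smul, smul_eq_mul] at h3
  have h4 : (m * m' - 1) * (C * C').trace = 0 := by rw [sub_mul, h3, one_mul, sub_self]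
  exact sub_eq_zero.mp ((mul_eq_zero.mp h4).resolve_right ht)

theorem Rel.scalar {s w : k} [CharZero k] (hs : s ^ 2 = 5) (hw : w ^ 2 + w + 1 = 0)
    {g : Matrix (Fin 3) (Fin 3) k} (h : Rel s w 1 g) : ∃ c : k, c ≠ 0 ∧ g = c • 1 := by
  have hw0 := w_ne hw
  obtain ⟨hdet, h⟩ := h
  obtain ⟨c0, hc0, e0⟩ := h 0
  obtain ⟨c1, hc1, e1⟩ := h 1
  obtain ⟨c2, hc2, e2⟩ := h 2
  obtain ⟨c3, hc3, e3⟩ := h 3
  simp only [Equiv.Perm.one_apply] at e0 e1 e2 e3
  rw [Cm_zero, Matrix.mul_one] at e0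
  have k1 := comm_of hc0 e0 e1
  have k2 := comm_of hc0 e0 e2
  have k3 := comm_of hc0 e0 e3
  have t12 : (Cm s w 1 * Cm s w 2).trace ≠ 0 := by
    have : (Cm s w 1 * Cm s w 2).trace * (-1 - s - 2 * s * w) = 48 := by
      simp [Matrix.trace_fin_three, Cm]
      grind
    intro h0
    rw [h0, zero_mul] at this
    norm_num at this
  have t13 : (Cm s w 1 * Cm s w 3).trace ≠ 0 := by
    have : (Cm s w 1 * Cm s w 3).trace * (1 - s + w + s * w) = 48 := by
      simp [Matrix.trace_fin_three, Cm]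
      grind
    intro h0
    rw [h0, zero_mul] at this
    norm_num at this
  have t23 : (Cm s w 2 * Cm s w 3).trace ≠ 0 := by
    have : (Cm s w 2 * Cm s w 3).trace * (-1 - s - 2 * s * w) = 384 := by
      simp [Matrix.trace_fin_three, Cm]
      grind
    intro h0
    rw [h0, zero_mul] at this
    norm_num at this
  set m1 := c1 / c0 with hm1
  set m2 := c2 / c0 with hm2
  set m3 := c3 / c0 with hm3
  have r12 := trace_rel hdet k1 k2 t12
  have r13 := trace_rel hdet k1 k3 t13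
  have r23 := trace_rel hdet k2 k3 t23
  have m30 : m3 ≠ 0 := right_ne_zero_of_mul_eq_one r13
  have m12 : m1 = m2 := mul_right_cancel₀ m30 (r13.trans r23.symm)
  have msq : m1 * m1 = 1 := by
    nth_rewrite 2 [m12]
    exact r12
  have hC3 : Cm s w 1 * Cm s w 1 * Cm s w 1 = 1 := by
    ext i j
    fin_cases i <;> fin_cases j <;>
      simp [Matrix.mul_apply, Fin.sum_univ_three, Cm] <;> grind
  have hcube : m1 * m1 * m1 = 1 := by
    have q1 : Cm s w 1 * Cm s w 1 * Cm s w 1 * g =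
        (m1 * m1 * m1) • (g * (Cm s w 1 * Cm s w 1 * Cm s w 1)) := by
      calc Cm s w 1 * Cm s w 1 * Cm s w 1 * g
          = Cm s w 1 * (Cm s w 1 * (Cm s w 1 * g)) := by simp only [Matrix.mul_assoc]
        _ = Cm s w 1 * (Cm s w 1 * (m1 • (g * Cm s w 1))) := by rw [k1]
        _ = m1 • (Cm s w 1 * ((Cm s w 1 * g) * Cm s w 1)) := by
            simp only [Matrix.mul_smul, Matrix.mul_assoc]
        _ = m1 • (Cm s w 1 * ((m1 • (g * Cm s w 1)) * Cm s w 1)) := by rw [k1]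
        _ = (m1 * m1) • ((Cm s w 1 * g) * Cm s w 1 * Cm s w 1) := by
            simp only [Matrix.mul_smul, Matrix.smul_mul, Matrix.mul_assoc, smul_smul]
        _ = (m1 * m1) • ((m1 • (g * Cm s w 1)) * Cm s w 1 * Cm s w 1) := by rw [k1]
        _ = (m1 * m1 * m1) • (g * (Cm s w 1 * Cm s w 1 * Cm s w 1)) := by
            simp only [Matrix.smul_mul, Matrix.mul_assoc, smul_smul]
    rw [hC3, Matrix.one_mul, Matrix.mul_one] at q1
    have q2 : (1 - m1 * m1 * m1) • g = 0 := by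
      rw [sub_smul, one_smul, ← q1, sub_self]
    rcases smul_eq_zero.mp q2 with q3 | q3
    · exact (sub_eq_zero.mp q3).symm
    · exfalso
      apply hdet
      rw [q3, det_zero]
  have m1e : m1 = 1 := by
    rw [msq, one_mul] at hcube
    exact hcube
  have m2e : m2 = 1 := by rw [← m12]; exact m1e
  rw [m1e, one_smul] at k1
  rw [m2e, one_smul] at k2
  have w1 : w ≠ 1 := by
    rintro rfl
    norm_num at hw
  have w2 : w ^ 2 ≠ 1 := by
    intro h2
    have : w = -2 := by linear_combination hw - h2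
    rw [this] at hw
    norm_num at hw
  have E1 : ∀ i j, (Cm s w 1 * g) i j = (g * Cm s w 1) i j := fun i j => by rw [k1]
  have E2 : ∀ i j, (Cm s w 2 * g) i j = (g * Cm s w 2) i j := fun i j => by rw [k2]
  have a01 := E1 0 1
  have a02 := E1 0 2
  have a10 := E1 1 0
  have a12 := E1 1 2
  have a20 := E1 2 0
  have a21 := E1 2 1
  simp [Matrix.mul_apply, Fin.sum_univ_three, Cm] at a01 a02 a10 a12 a20 a21
  have g01 : g 0 1 = 0 := by
    have : g 0 1 * (w - 1) = 0 := by linear_combination -a01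
    exact (mul_eq_zero.mp this).resolve_right (sub_ne_zero.mpr w1)
  have g02 : g 0 2 = 0 := by
    have : g 0 2 * (w ^ 2 - 1) = 0 := by linear_combination -a02
    exact (mul_eq_zero.mp this).resolve_right (sub_ne_zero.mpr w2)
  have g10 : g 1 0 = 0 := by
    have : g 1 0 * (w - 1) = 0 := by linear_combination a10
    exact (mul_eq_zero.mp this).resolve_right (sub_ne_zero.mpr w1)
  have g20 : g 2 0 = 0 := by
    have : g 2 0 * (w ^ 2 - 1) = 0 := by linear_combination a20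
    exact (mul_eq_zero.mp this).resolve_right (sub_ne_zero.mpr w2)
  have g12 : g 1 2 = 0 := by
    have : g 1 2 * (w * (w - 1)) = 0 := by linear_combination -a12
    exact (mul_eq_zero.mp this).resolve_right (mul_ne_zero hw0 (sub_ne_zero.mpr w1))
  have g21 : g 2 1 = 0 := by
    have : g 2 1 * (w * (w - 1)) = 0 := by linear_combination a21
    exact (mul_eq_zero.mp this).resolve_right (mul_ne_zero hw0 (sub_ne_zero.mpr w1))
  have b01 := E2 0 1
  have b02 := E2 0 2
  simp [Matrix.mul_apply, Fin.sum_univ_three, Cm, g01, g02, g12, g21] at b01 b02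
  have bne : -2 * s + 3 * w - s * w ≠ 0 := by
    have : (-2 * s + 3 * w - s * w) * (-3 - s - 3 * w + s * w) = 24 := by grind
    intro h0
    rw [h0, zero_mul] at this
    norm_num at this
  have cne : -3 + s - 3 * w - s * w ≠ 0 := by
    have : (-3 + s - 3 * w - s * w) * (2 * s + 3 * w + s * w) = 24 := by grind
    intro h0
    rw [h0, zero_mul] at this
    norm_num at this
  have g11 : g 1 1 = g 0 0 := by
    have : (-2 * s + 3 * w - s * w) * (g 1 1 - g 0 0) = 0 := by grind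
    exact sub_eq_zero.mp ((mul_eq_zero.mp this).resolve_left bne)
  have g22 : g 2 2 = g 0 0 := by
    have : (-3 + s - 3 * w - s * w) * (g 2 2 - g 0 0) = 0 := by grind
    exact sub_eq_zero.mp ((mul_eq_zero.mp this).resolve_left cne)
  have hg : g = g 0 0 • 1 := by
    ext i j
    fin_cases i <;> fin_cases j <;> simp [g01, g02, g10, g12, g20, g21, g11, g22]
  refine ⟨g 0 0, ?_, hg⟩
  intro h0
  rw [h0, zero_smul] at hg
  apply hdet
  rw [hg, det_zero]

/-- two matrices over the same permutation are proportional -/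
theorem Rel.prop {s w : k} [CharZero k] (hs : s ^ 2 = 5) (hw : w ^ 2 + w + 1 = 0)
    {σ : Equiv.Perm (Fin 6)} {g h : Matrix (Fin 3) (Fin 3) k} (h1 : Rel s w σ g)
    (h2 : Rel s w σ h) : ∃ c : k, c ≠ 0 ∧ g = c • h := by
  have h3 := h1.mul h2.inv
  rw [mul_inv_cancel] at h3
  obtain ⟨c, hc, e⟩ := h3.scalar hs hw
  refine ⟨c, hc, ?_⟩
  have hu : IsUnit h.det := isUnit_iff_ne_zero.mpr h2.1
  calc g = g * h⁻¹ * h := by rw [Matrix.mul_assoc, Matrix.nonsing_inv_mul _ hu, Matrix.mul_one]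
    _ = c • h := by rw [e, Matrix.smul_mul, Matrix.one_mul]

/-- the permutations with a matrix -/
def Gr (s w : k) : Subgroup (Equiv.Perm (Fin 6)) where
  carrier := {σ | ∃ g, Rel s w σ g}
  mul_mem' := by
    rintro σ τ ⟨g, hg⟩ ⟨h, hh⟩
    exact ⟨g * h, hg.mul hh⟩
  one_mem' := ⟨1, Rel.one s w⟩
  inv_mem' := by
    rintro σ ⟨g, hg⟩
    exact ⟨g⁻¹, hg.inv⟩

end unique

end Valent

open Valent in
/-- The projective representation of degree `3` of the alternating group of degree `6`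
(Valentiner). -/
theorem exists_valentiner (k K : Type*) [Field k] [IsAlgClosed k] [CharZero k] [Field K]
    [Algebra k K] :
    ∃ M : Equiv.Perm (Fin 6) → Matrix (Fin 3) (Fin 3) k,
      (∀ σ ∈ alternatingGroup (Fin 6), (M σ).det ≠ 0) ∧
      (∀ σ ∈ alternatingGroup (Fin 6), ∀ τ ∈ alternatingGroup (Fin 6),
        ∃ c : k, c ≠ 0 ∧ M (σ * τ) = c • (M σ * M τ)) ∧
      ∀ v : Fin 3 → K, (∀ σ ∈ alternatingGroup (Fin 6), ∃ c : K,
        ((M σ).map (algebraMap k K)).mulVec v = c • v) → v = 0 := by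
  classical
  obtain ⟨s, hs⟩ := IsAlgClosed.exists_pow_nat_eq (5 : k) (n := 2) (by norm_num)
  obtain ⟨z, hz⟩ := IsAlgClosed.exists_pow_nat_eq (-3 : k) (n := 2) (by norm_num)
  obtain ⟨w, hw⟩ : ∃ w : k, w ^ 2 + w + 1 = 0 := by
    refine ⟨(z - 1) / 2, ?_⟩
    field_simp
    linear_combination hz
  have hle : alternatingGroup (Fin 6) ≤ Gr s w :=
    gen (Gr s w) ⟨_, relP hw⟩ ⟨_, relD hw⟩ ⟨_, relA hs hw⟩ ⟨_, relM hs hw⟩
  let M : Equiv.Perm (Fin 6) → Matrix (Fin 3) (Fin 3) k := fun σ =>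
    if h : ∃ g, Rel s w σ g then Classical.choose h else 0
  have hM : ∀ σ ∈ alternatingGroup (Fin 6), Rel s w σ (M σ) := by
    intro σ hσ
    have h : ∃ g, Rel s w σ g := hle hσ
    simp only [M]
    rw [dif_pos h]
    exact Classical.choose_spec h
  refine ⟨M, fun σ hσ => (hM σ hσ).1, fun σ hσ τ hτ => ?_, fun v hv => ?_⟩
  · exact (hM (σ * τ) (Subgroup.mul_mem _ hσ hτ)).prop hs hw ((hM σ hσ).mul (hM τ hτ))
  · have h2 : (2 : K) ≠ 0 := by
      have h : algebraMap k K 2 ≠ 0 :=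
        (map_ne_zero_iff _ (algebraMap k K).injective).mpr two_ne_zero
      rwa [map_ofNat] at h
    have key : ∀ (σ : Equiv.Perm (Fin 6)) (g : Matrix (Fin 3) (Fin 3) k),
        σ ∈ alternatingGroup (Fin 6) → Rel s w σ g →
        ∃ c : K, (g.map (algebraMap k K)).mulVec v = c • v := by
      intro σ g hσ hg
      obtain ⟨c, _, e⟩ := hg.prop hs hw (hM σ hσ)
      obtain ⟨c', e'⟩ := hv σ hσ
      refine ⟨algebraMap k K c * c', ?_⟩
      have : g.map (algebraMap k K) = algebraMap k K c • (M σ).map (algebraMap k K) := by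
        rw [e]
        ext i j
        simp
      rw [this, Matrix.smul_mulVec, e', smul_smul]
    obtain ⟨c, hc⟩ := key sD Dm sD_alt (relD hw)
    obtain ⟨d, hd⟩ := key sP Pm sP_alt (relP hw)
    have c0 := congrFun hc 0
    have c1 := congrFun hc 1
    have c2 := congrFun hc 2
    have d0 := congrFun hd 0
    have d1 := congrFun hd 1
    have d2 := congrFun hd 2
    simp [Matrix.mulVec, dotProduct, Fin.sum_univ_three, Dm] at c0 c1 c2
    simp [Matrix.mulVec, dotProduct, Fin.sum_univ_three, Pm] at d0 d1 d2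
    have v0 : v 0 = 0 := by
      by_contra h0
      have e1 : (c - 1) * v 0 = 0 := by rw [sub_mul, one_mul, ← c0, sub_self]
      have e2 : c = 1 := sub_eq_zero.mp ((mul_eq_zero.mp e1).resolve_right h0)
      rw [e2, one_mul] at c1
      have e3 : 2 * v 1 = 0 := by linear_combination -c1
      have e4 : v 1 = 0 := (mul_eq_zero.mp e3).resolve_left h2
      rw [e4, mul_zero] at d1
      rw [d1, mul_zero] at d2
      exact h0 d2
    have v1 : v 1 = 0 := by rw [d0, v0, mul_zero]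
    have v2 : v 2 = 0 := by rw [d1, v1, mul_zero]
    funext i
    fin_cases i
    · exact v0
    · exact v1
    · exact v2

end Pool.Agent.Helper85.SC
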