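import Pool.Agent.Helper85.SC.Lower
import Pool.Agent.Helper85.SC6.Valentiner
import Pool.Agent.Helper85.SC6.Alpha
import Pool.Agent.Helper85.SC6.CubicEven
import Pool.Agent.Helper85.SC6.Orbit

namespace Pool.Agent.Helper85.SC

open IntermediateField

variable {k : Type*} {K : Type*} [Field k] [Field K] [Algebra k K]

/-- automorphisms over a bigger field -/
noncomputable def toBase {F E : IntermediateField k K} (h : F ≤ E) (g : K ≃ₐ[E] K) :
    K ≃ₐ[F] K :=
  AlgEquiv.ofRingEquiv (f := g.toRingEquiv) fun x => g.commutes ⟨x, h x.2⟩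

theorem toBase_apply {F E : IntermediateField k K} (h : F ≤ E) (g : K ≃ₐ[E] K) (z : K) :
    toBase h g z = g z := rfl

theorem toBase_fix {F E : IntermediateField k K} (h : F ≤ E) (g : K ≃ₐ[E] K) (z : K)
    (hz : z ∈ E) : toBase h g z = z := g.commutes ⟨z, hz⟩

theorem mem_br_iff_poly {r : ℕ} {t : Fin r → K} {z : K} :
    z ∈ br k t ↔ ∃ p : Polynomial K, p ≠ 0 ∧ (∀ i, p.coeff i ∈ adjoin k (Set.range t)) ∧
      p.eval z = 0 := by
  rw [mem_br]
  constructor
  · rintro ⟨p, hp0, hp⟩
    refine ⟨p.map (algebraMap _ K), ?_, fun i => ?_, ?_⟩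
    · rwa [Polynomial.map_ne_zero_iff (algebraMap (adjoin k (Set.range t)) K).injective]
    · rw [Polynomial.coeff_map]
      exact (p.coeff i).2
    · rwa [Polynomial.eval_map_algebraMap]
  · rintro ⟨p, hp0, hp, hz⟩
    have hl : p ∈ Polynomial.lifts (algebraMap (adjoin k (Set.range t)) K) := by
      rw [Polynomial.lifts_iff_coeff_lifts]
      intro i
      exact ⟨⟨p.coeff i, hp i⟩, rfl⟩
    obtain ⟨q, hq⟩ := (Polynomial.mem_lifts p).1 hl
    refine ⟨q, ?_, ?_⟩
    · rintro rfl
      apply hp0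
      rw [← hq, Polynomial.map_zero]
    · rw [Polynomial.aeval_def, Polynomial.eval₂_eq_eval_map, hq, hz]

theorem map_br' {r : ℕ} {t : Fin r → K} (g : K ≃ₐ[k] K) {z : K} (hz : z ∈ br k t) :
    g z ∈ br k (fun i => g (t i)) := by
  rw [mem_br_iff_poly] at hz ⊢
  obtain ⟨p, hp0, hp, hz⟩ := hz
  refine ⟨p.map (g : K →+* K), ?_, fun i => ?_, ?_⟩
  · rwa [Polynomial.map_ne_zero_iff (g : K →+* K).injective]
  · rw [Polynomial.coeff_map]
    have h1 := adjoin_map (F := k) (Set.range t) (g : K →ₐ[k] K)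
    have h2 : g (p.coeff i) ∈ (adjoin k (Set.range t)).map (g : K →ₐ[k] K) :=
      ⟨p.coeff i, hp i, rfl⟩
    rw [h1] at h2
    have h3 : ((g : K →ₐ[k] K) : K → K) '' Set.range t = Set.range fun i => g (t i) := by
      rw [← Set.range_comp]
      rfl
    rw [h3] at h2
    exact h2
  · have h4 : Polynomial.eval ((g : K →+* K) z) (p.map (g : K →+* K)) =
        (g : K →+* K) (p.eval z) := by
      rw [Polynomial.eval_map_apply]
    have h5 : (g : K →+* K) z = g z := rfl
    rw [h5] at h4
    rw [h4, hz, map_zero]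

theorem next_stable' {r : ℕ} {E : IntermediateField k K} (g : K ≃ₐ[k] K)
    (hE : ∀ z ∈ E, g z ∈ E) {z : K} (hz : z ∈ next k r E) : g z ∈ next k r E := by
  have h : next k r E ≤ (next k r E).comap (g : K →ₐ[k] K) := by
    refine iSup_le fun t w hw => ?_
    change g w ∈ next k r E
    exact br_le_next _ (fun i => hE _ (t i).2) (map_br' g hw)
  exact h hz

/-- even permutations are induced by automorphisms over `E` -/
theorem exists_lift_even [IsAlgClosed K] [CharZero k] {F E : IntermediateField k K} {n : ℕ}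
    {y : Fin n → K} (hG : Gen F y) (hn : 5 ≤ n) (hFE : F ≤ E)
    (hst : ∀ g : K ≃ₐ[F] K, ∀ z ∈ E, g z ∈ E) {i₀ : Fin n} (hy : y i₀ ∉ E)
    (σ : Equiv.Perm (Fin n)) (hσ : σ ∈ alternatingGroup (Fin n)) :
    ∃ g : K ≃ₐ[F] K, (∀ w ∈ E, g w = w) ∧ piHom hG g = σ := by
  let N : Subgroup (K ≃ₐ[F] K) :=
    { carrier := {g | ∀ w ∈ E, g w = w}
      mul_mem' := by
        intro a b ha hb w hw
        change a (b w) = w
        rw [hb w hw, ha w hw]
      one_mem' := fun w _ => rfl
      inv_mem' := by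
        intro a ha w hw
        change a.symm w = w
        rw [AlgEquiv.symm_apply_eq, ha w hw] }
  have hN : N.Normal := by
    constructor
    intro a ha g w hw
    change g (a (g.symm w)) = w
    rw [ha _ (hst g.symm w hw), AlgEquiv.apply_symm_apply]
  have hsurj : Function.Surjective (piHom hG) := fun τ =>
    (hG.lift τ).imp fun g hg => piHom_eq hG hg
  have hN' : (N.map (piHom hG)).Normal := hN.map _ hsurj
  have hne : N.map (piHom hG) ≠ ⊥ := by
    intro h
    apply hy
    refine mem_of_fixed hG.alg hFE fun g hg => ?_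
    have h1 : piHom hG g ∈ N.map (piHom hG) := ⟨g, hg, rfl⟩
    rw [h, Subgroup.mem_bot] at h1
    rw [piHom_spec hG, h1]
    rfl
  obtain ⟨g, hg, hgσ⟩ := alternating_le hn _ hN' hne hσ
  exact ⟨g, hg, hgσ⟩

theorem sextic [IsAlgClosed k] [CharZero k] [IsAlgClosed K] {F : IntermediateField k K}
    {y : Fin 6 → K} (hG : Gen F y) (i₀ : Fin 6) : y i₀ ∈ next k 2 (next k 2 F) := by
  classical
  have hK : CharZero K := charZero_of_injective_algebraMap (algebraMap k K).injective
  obtain ⟨E, hE⟩ : ∃ E, E = next k 2 F := ⟨_, rfl⟩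
  rw [← hE]
  have hFE : F ≤ E := by
    rw [hE]
    exact le_next (by norm_num) F
  have hEst : ∀ g : K ≃ₐ[F] K, ∀ z ∈ E, g z ∈ E := by
    intro g z hz
    rw [hE] at hz ⊢
    exact next_stable g hz
  obtain ⟨M, hdet, hmul, hirr⟩ := exists_valentiner k K
  obtain ⟨α, hαmem, hαeq, hαs⟩ := exists_alpha y hG.ind M hdet hmul
  by_contra hcon
  have hyi : Function.Injective y := hG.ind.injective
  -- eigenvector
  obtain ⟨l, v₀, hv₀, hαv₀⟩ : ∃ (l : K) (v₀ : Fin 3 → K), v₀ ≠ 0 ∧
      α.mulVec v₀ = l • v₀ := by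
    obtain ⟨l, hl⟩ := Module.End.exists_eigenvalue (Matrix.toLin' α)
    obtain ⟨v, hv⟩ := hl.exists_hasEigenvector
    refine ⟨l, v, hv.2, ?_⟩
    have := hv.apply_eq_smul
    rwa [Matrix.toLin'_apply] at this
  obtain ⟨i₁, hi₁⟩ : ∃ i, v₀ i ≠ 0 := by
    by_contra h
    push Not at h
    exact hv₀ (funext h)
  obtain ⟨v, hv1, hαv⟩ : ∃ v : Fin 3 → K, v i₁ = 1 ∧ α.mulVec v = l • v := by
    refine ⟨(v₀ i₁)⁻¹ • v₀, ?_, ?_⟩
    · rw [Pi.smul_apply, smul_eq_mul, inv_mul_cancel₀ hi₁]
    · rw [Matrix.mulVec_smul, hαv₀, smul_comm]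
  have hv0 : v ≠ 0 := by
    rintro rfl
    exact zero_ne_one hv1
  -- the transformation of the eigenvector
  have key : ∀ (g : K ≃ₐ[F] K) (σ : Equiv.Perm (Fin 6)), σ ∈ alternatingGroup (Fin 6) →
      (∀ i, g (y i) = y (σ i)) → g l = l →
      ∃ c : K, ((M σ).map (algebraMap k K)).mulVec (fun i => g (v i)) = c • v := by
    intro g σ hσ hg hl
    refine hαs l v _ hv0 hαv ?_
    have h1 := hαeq ((g.restrictScalars k : K ≃ₐ[k] K) : K →ₐ[k] K) σ hσ hg
    have h2 : (α.map ((g.restrictScalars k : K ≃ₐ[k] K) : K →ₐ[k] K)).mulVec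
        (fun i => g (v i)) = l • (fun i => g (v i)) := by
      ext i
      have h3 := congrArg g (congrFun hαv i)
      simp only [Matrix.mulVec, dotProduct, Pi.smul_apply, smul_eq_mul, map_sum, map_mul,
        hl] at h3
      simpa [Matrix.mulVec, dotProduct] using h3
    rw [Matrix.mulVec_mulVec, ← h1, ← Matrix.mulVec_mulVec, h2, Matrix.mulVec_smul]
  -- the coefficients of the characteristic polynomial
  have hcoef : ∀ s, EvenFixed F y (α.charpoly.coeff s) := by
    intro s g σ hσ hg
    have h1 := hαeq ((g.restrictScalars k : K ≃ₐ[k] K) : K →ₐ[k] K) σ hσ hg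
    have hu : IsUnit (M σ).det := isUnit_iff_ne_zero.2 (hdet σ hσ)
    have h2 : ((M σ)⁻¹).map (algebraMap k K) * (M σ).map (algebraMap k K) = 1 := by
      rw [← Matrix.map_mul, Matrix.nonsing_inv_mul _ hu, Matrix.map_one _ (map_zero _) (map_one _)]
    have h3 : (M σ).map (algebraMap k K) * ((M σ)⁻¹).map (algebraMap k K) = 1 := by
      rw [← Matrix.map_mul, Matrix.mul_nonsing_inv _ hu, Matrix.map_one _ (map_zero _) (map_one _)]
    have h4 : α.map ((g.restrictScalars k : K ≃ₐ[k] K) : K →ₐ[k] K) =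
        ((M σ)⁻¹).map (algebraMap k K) * (α * (M σ).map (algebraMap k K)) := by
      rw [← h1, ← Matrix.mul_assoc, h2, Matrix.one_mul]
    have h5 : (α.map ((g.restrictScalars k : K ≃ₐ[k] K) : K →ₐ[k] K)).charpoly =
        α.charpoly := by
      rw [h4, Matrix.charpoly_mul_comm, Matrix.mul_assoc, h3, Matrix.mul_one]
    have h6 := Matrix.charpoly_map α ((g : K →+* K))
    have h7 : α.map ((g : K →+* K)) = α.map ((g.restrictScalars k : K ≃ₐ[k] K) : K →ₐ[k] K) :=
      rfl
    rw [h7, h5] at h6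
    have h8 := congrArg (fun p => Polynomial.coeff p s) h6
    simp only [Polynomial.coeff_map] at h8
    exact h8.symm
  have hroot : α.charpoly.eval l = 0 := by
    rw [Matrix.eval_charpoly, ← Matrix.exists_mulVec_eq_zero_iff]
    refine ⟨v, hv0, ?_⟩
    rw [Matrix.sub_mulVec, hαv, Matrix.scalar_apply, ← Matrix.smul_one_eq_diagonal,
      Matrix.smul_mulVec, Matrix.one_mulVec, sub_self]
  have hlE : l ∈ E := by
    rw [hE]
    refine cubic_even hG (hcoef 2) (hcoef 1) (hcoef 0) ?_
    have h1 := hroot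
    have h2 : α.charpoly.natDegree = 3 := by
      rw [Matrix.charpoly_natDegree_eq_dim, Fintype.card_fin]
    have h3 : α.charpoly.coeff 3 = 1 := by
      have := α.charpoly_monic
      rwa [Polynomial.Monic, Polynomial.leadingCoeff, h2] at this
    rw [Polynomial.eval_eq_sum_range, h2] at h1
    simp only [Finset.sum_range_succ, Finset.sum_range_zero, h3] at h1
    linear_combination h1
  -- the sign
  have hsign : ∀ g : K ≃ₐ[F] K, (∀ w ∈ E, g w = w) →
      piHom hG g ∈ alternatingGroup (Fin 6) := by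
    have hvand : ∀ (g : K ≃ₐ[F] K) (σ : Equiv.Perm (Fin 6)), (∀ i, g (y i) = y (σ i)) →
        g (Matrix.vandermonde y).det
          = ((Equiv.Perm.sign σ : ℤ) : K) * (Matrix.vandermonde y).det := by
      intro g σ h
      have h1 : g (Matrix.vandermonde y).det
          = ((g : K →+* K).mapMatrix (Matrix.vandermonde y)).det :=
        RingHom.map_det (g : K →+* K) _
      have h2 : (g : K →+* K).mapMatrix (Matrix.vandermonde y)
          = (Matrix.vandermonde y).submatrix σ id := by
        ext i j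
        simp [Matrix.vandermonde_apply, h]
      rw [h1, h2, Matrix.det_permute]
    have hD0 : (Matrix.vandermonde y).det ≠ 0 := Matrix.det_vandermonde_ne_zero_iff.2 hyi
    have hDE : (Matrix.vandermonde y).det ∈ E := by
      rw [hE]
      refine mem_next_of_evenFixed hG (a := (Matrix.vandermonde y).det) ?_ ?_
      · intro g σ hσ hg
        rw [hvand g σ hg, Equiv.Perm.mem_alternatingGroup.1 hσ]
        simp
      · exact isAlgebraic_algebraMap (⟨_, subset_adjoin k _ (Set.mem_singleton _)⟩ :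
          adjoin k {(Matrix.vandermonde y).det})
    intro g hg
    rw [Equiv.Perm.mem_alternatingGroup]
    have h1 := hvand g _ (piHom_spec hG g)
    rw [hg _ hDE] at h1
    rcases Int.units_eq_one_or (Equiv.Perm.sign (piHom hG g)) with h2 | h2
    · exact h2
    · rw [h2] at h1
      exfalso
      apply hD0
      push_cast at h1
      have h3 : (2 : K) * (Matrix.vandermonde y).det = 0 := by linear_combination h1
      exact (mul_eq_zero.1 h3).resolve_left two_ne_zero
  -- the coordinates of the point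
  let u : Fin 2 → K := fun j => v (i₁.succAbove j)
  have hvu : ∀ j, v j ∈ adjoin k (Set.range u) := by
    intro j
    rcases Fin.eq_self_or_eq_succAbove i₁ j with rfl | ⟨j', rfl⟩
    · rw [hv1]
      exact one_mem _
    · exact subset_adjoin k _ ⟨j', rfl⟩
  have hu : ∀ j, u j ∈ next k 2 E := by
    refine mem_next_of_stable_field (isAlg_mono hFE hG.alg) (by norm_num) u fun g j => ?_
    let g' := toBase hFE g
    have hg' : ∀ w ∈ E, g' w = w := fun w hw => toBase_fix hFE g w hw
    have hσ := hsign g' hg'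
    obtain ⟨c, hc⟩ := key g' _ hσ (piHom_spec hG g') (hg' l hlE)
    set σ := piHom hG g'
    have hu : IsUnit (M σ).det := isUnit_iff_ne_zero.2 (hdet σ hσ)
    have h2 : ((M σ)⁻¹).map (algebraMap k K) * (M σ).map (algebraMap k K) = 1 := by
      rw [← Matrix.map_mul, Matrix.nonsing_inv_mul _ hu, Matrix.map_one _ (map_zero _) (map_one _)]
    have h3 : (fun i => g' (v i)) = c • (((M σ)⁻¹).map (algebraMap k K)).mulVec v := by
      have h4 := congrArg (fun w => (((M σ)⁻¹).map (algebraMap k K)).mulVec w) hc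
      simp only [Matrix.mulVec_mulVec, h2, Matrix.one_mulVec, Matrix.mulVec_smul] at h4
      exact h4
    set w := (((M σ)⁻¹).map (algebraMap k K)).mulVec v with hw
    have hwmem : ∀ i, w i ∈ adjoin k (Set.range u) := by
      intro i
      rw [hw]
      simp only [Matrix.mulVec, dotProduct, Matrix.map_apply]
      exact sum_mem fun j _ => mul_mem ((adjoin k (Set.range u)).algebraMap_mem _) (hvu j)
    have h5 : 1 = c * w i₁ := by
      have h6 := congrFun h3 i₁
      simp only [hv1, map_one, Pi.smul_apply, smul_eq_mul] at h6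
      exact h6
    have h6 : g (u j) = w (i₁.succAbove j) / w i₁ := by
      have h7 := congrFun h3 (i₁.succAbove j)
      simp only [Pi.smul_apply, smul_eq_mul] at h7
      have h8 : w i₁ ≠ 0 := by
        intro h9
        rw [h9, mul_zero] at h5
        exact one_ne_zero h5
      rw [eq_div_iff h8]
      have h9 : g (u j) = g' (v (i₁.succAbove j)) := rfl
      rw [h9, h7]
      linear_combination -w (i₁.succAbove j) * h5
    rw [h6]
    exact div_mem (hwmem _) (hwmem _)
  have hvE : ∀ j, v j ∈ next k 2 E := by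
    intro j
    rcases Fin.eq_self_or_eq_succAbove i₁ j with rfl | ⟨j', rfl⟩
    · rw [hv1]
      exact one_mem _
    · exact hu j'
  -- conclusion
  have hEE : E ≤ next k 2 E := le_next (by norm_num) E
  apply hv0
  refine hirr v fun σ hσ => ?_
  obtain ⟨g, hg, hgσ⟩ := exists_lift_even hG (by norm_num) (hFE.trans hEE)
    (fun g z hz => next_stable' (g.restrictScalars k) (fun w hw => hEst g w hw) hz) hcon σ hσ
  obtain ⟨c, hc⟩ := key g σ hσ (fun i => by rw [piHom_spec hG g, hgσ])
    (hg _ (hEE hlE))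
  refine ⟨c, ?_⟩
  have h1 : (fun i => g (v i)) = v := funext fun i => hg _ (hvE i)
  rwa [h1] at hc

end Pool.Agent.Helper85.SC
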