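import Pool.Agent.Helper85.SC.Upper
import Pool.Agent.Helper85.SC6.Sextic

namespace Pool.Agent.Helper85.SC

open IntermediateField

/-- For the general polynomial of degree `6` (characteristic `0`) the least `s` with `f` in
`M_r^s` is `3` for `r = 2` and is `2` for every `r >= 3`. -/
theorem least_six {k K : Type*} [Field k] [IsAlgClosed k] [CharZero k] [Field K] [Algebra k K]
    (x : Fin 6 → K) (hx : AlgebraicIndependent k x)
    [Algebra.IsAlgebraic (adjoin k (Set.range x)) K] [IsAlgClosed K]
    (f : K) (hf : f ^ 6 + ∑ i : Fin 6, x i * f ^ (6 - 1 - (i : ℕ)) = 0)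
    (r : ℕ) (hr : 2 ≤ r) :
    IsLeast {s | 1 ≤ s ∧ f ∈ M k x r s} (if r = 2 then 3 else 2) := by
  obtain ⟨y, hG, i₀, rfl⟩ := exists_gen hx ‹_› hf
  have h1 : M k x r 1 = adjoin k (Set.range x) := rfl
  have h2 : M k x r 2 = next k r (adjoin k (Set.range x)) := rfl
  by_cases hr2 : r = 2
  · subst hr2
    rw [if_pos rfl]
    refine ⟨⟨by norm_num, sextic hG i₀⟩, ?_⟩
    rintro s ⟨hs1, hs⟩
    by_contra hlt
    have : s = 1 ∨ s = 2 := by omega
    rcases this with rfl | rfl
    · rw [h1] at hs
      exact not_mem_base hG (by norm_num) i₀ hs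
    · rw [h2] at hs
      have := lower hG (by norm_num) hs
      omega
  · rw [if_neg hr2]
    refine ⟨⟨by norm_num, ?_⟩, ?_⟩
    · rw [h2]
      exact next_mono_right (by norm_num) (by omega) _ (upper hG (by norm_num) i₀)
    · rintro s ⟨hs1, hs⟩
      by_contra hlt
      have : s = 1 := by omega
      subst this
      rw [h1] at hs
      exact not_mem_base hG (by norm_num) i₀ hs

end Pool.Agent.Helper85.SC
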